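import Pool.Agent.T6.H61.QP.MixEnd

/-!
# Mixing of the stationary symmetric quasi-periodic walks

For every irrational `α`, Liouville numbers included, and every symmetric environment
`p : 𝕋 → (0, 1)` of class `C^1`, the stationary chain started from any stationary
probability measure is mixing for the time shift on path space.
-/

set_option autoImplicit false

namespace Pool.Agent.Results.MP_8d4b21_pr.MixingStationary

open MeasureTheory ProbabilityTheory Filter Topology
open scoped ENNReal

/-- The transition operator of the chain `(X_t)` on the circle `𝕋 = ℝ/ℤ`: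
`(P φ)(y) = p(y) φ(y + α) + q(y) φ(y - α)` with `q = 1 - p`. -/
noncomputable def transition (α : ℝ) (p : C(UnitAddCircle, Set.Ioo (0 : ℝ) 1))
    (φ : UnitAddCircle → ℝ) (y : UnitAddCircle) : ℝ :=
  p y * φ (y + (α : UnitAddCircle)) + (1 - p y) * φ (y - (α : UnitAddCircle))

/-- `ν` is a stationary Borel probability measure: `∫ P φ dν = ∫ φ dν` for all continuous `φ`. -/
def IsStationary (α : ℝ) (p : C(UnitAddCircle, Set.Ioo (0 : ℝ) 1))
    (ν : Measure UnitAddCircle) : Prop :=
  IsProbabilityMeasure ν ∧
    ∀ φ : C(UnitAddCircle, ℝ), ∫ y, transition α p φ y ∂ν = ∫ y, φ y ∂ν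

/-- The one-step transition kernel of `(X_t)`: from `y` the chain jumps to `y + α` with
probability `p(y)` and to `y - α` with probability `q(y) = 1 - p(y)`. -/
noncomputable def stepKernel (α : ℝ) (p : C(UnitAddCircle, Set.Ioo (0 : ℝ) 1)) :
    Kernel UnitAddCircle UnitAddCircle where
  toFun y := ENNReal.ofReal (p y) • Measure.dirac (y + (α : UnitAddCircle)) +
    ENNReal.ofReal (1 - p y) • Measure.dirac (y - (α : UnitAddCircle))
  measurable' := (H61.QP.stepKernel α p).measurable'

instance (α : ℝ) (p : C(UnitAddCircle, Set.Ioo (0 : ℝ) 1)) : IsMarkovKernel (stepKernel α p) :=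
  inferInstanceAs (IsMarkovKernel (H61.QP.stepKernel α p))

/-- Given the history of the chain up to time `n`, the next state has law
`stepKernel α p (state at time n)`. -/
noncomputable def historyKernel (α : ℝ) (p : C(UnitAddCircle, Set.Ioo (0 : ℝ) 1)) (n : ℕ) :
    Kernel (Π _ : Finset.Iic n, UnitAddCircle) UnitAddCircle :=
  (stepKernel α p).comap (fun h => h ⟨n, Finset.mem_Iic.2 le_rfl⟩) (measurable_pi_apply _)

instance (α : ℝ) (p : C(UnitAddCircle, Set.Ioo (0 : ℝ) 1)) (n : ℕ) :
    IsMarkovKernel (historyKernel α p n) := by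
  unfold historyKernel; infer_instance

/-- The law on path space `𝕋^ℕ` of the Markov chain `(X_t)` with initial law `ν`
(Ionescu-Tulcea). -/
noncomputable def pathLaw (α : ℝ) (p : C(UnitAddCircle, Set.Ioo (0 : ℝ) 1))
    (ν : Measure UnitAddCircle) : Measure (ℕ → UnitAddCircle) :=
  Kernel.trajMeasure (X := fun _ => UnitAddCircle) ν (historyKernel α p)

/-- The time shift on path space. -/
def timeShift (x : ℕ → UnitAddCircle) : ℕ → UnitAddCircle := fun n => x (n + 1)

/-- `Q` is mixing for the transformation `θ`: it is invariant and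
`Q(A ∩ θ^{-n} B) → Q(A) Q(B)` for all measurable sets `A`, `B`. -/
def IsMixing {Ω : Type*} [MeasurableSpace Ω] (θ : Ω → Ω) (Q : Measure Ω) : Prop :=
  MeasurePreserving θ Q Q ∧ ∀ A B : Set Ω, MeasurableSet A → MeasurableSet B →
    Tendsto (fun n : ℕ => Q (A ∩ θ^[n] ⁻¹' B)) atTop (𝓝 (Q A * Q B))

/-- **Main theorem.** Let `α` be irrational and let `p : 𝕋 → (0, 1)` be of class `C^1` with
`∫ ln p = ∫ ln q`. Then for every stationary probability measure `ν`, ergodic or not, the
stationary chain with initial law `ν` is mixing for the time shift on path space. -/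
theorem result (α : ℝ) (hα : Irrational α) (p : C(UnitAddCircle, Set.Ioo (0 : ℝ) 1))
    (hp : ContDiff ℝ 1 (fun t : ℝ => (p (t : UnitAddCircle) : ℝ)))
    (hsym : ∫ y : UnitAddCircle, Real.log (p y) = ∫ y : UnitAddCircle, Real.log (1 - p y))
    (ν : Measure UnitAddCircle) (hν : IsStationary α p ν) :
    IsMixing timeShift (pathLaw α p ν) :=
  H61.QP.mixing_main
    (⟨hα, hp, fun y => (p y).2.1, fun y => (p y).2.2, hsym⟩ : H61.QP.Env α (fun y => (p y : ℝ))) hν

end Pool.Agent.Results.MP_8d4b21_pr.MixingStationary
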