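import Pool.Agent.T6.H61.QP.Exist

/-!
# Uniqueness of the stationary measure of symmetric quasi-periodic walks

For every irrational `α`, Liouville numbers included, and every symmetric environment
`p : 𝕋 → (0, 1)` of class `C^1`, the environment chain has exactly one stationary probability
measure.
-/

set_option autoImplicit false

namespace Pool.Agent.Results.MP_8d4b21_pr.UniqueStationary

open MeasureTheory

/-- The transition operator of the chain `(X_t)` on the circle `𝕋 = ℝ/ℤ`:
`(P φ)(y) = p(y) φ(y + α) + q(y) φ(y - α)` with `q = 1 - p`. -/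
noncomputable def transition (α : ℝ) (p φ : UnitAddCircle → ℝ) (y : UnitAddCircle) : ℝ :=
  p y * φ (y + (α : UnitAddCircle)) + (1 - p y) * φ (y - (α : UnitAddCircle))

/-- `ν` is a stationary Borel probability measure: `∫ P φ dν = ∫ φ dν` for all continuous `φ`. -/
def IsStationary (α : ℝ) (p : UnitAddCircle → ℝ) (ν : Measure UnitAddCircle) : Prop :=
  IsProbabilityMeasure ν ∧
    ∀ φ : C(UnitAddCircle, ℝ), ∫ y, transition α p φ y ∂ν = ∫ y, φ y ∂ν

/-- **Main theorem.** Let `α` be irrational and let `p : 𝕋 → (0, 1)` be of class `C^1` with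
`∫ ln p = ∫ ln q`. Then there is exactly one stationary probability measure. -/
theorem result (α : ℝ) (hα : Irrational α) (p : UnitAddCircle → ℝ)
    (hp : ContDiff ℝ 1 (fun t : ℝ => p (t : UnitAddCircle)))
    (hp01 : ∀ y, 0 < p y ∧ p y < 1)
    (hsym : ∫ y : UnitAddCircle, Real.log (p y) = ∫ y : UnitAddCircle, Real.log (1 - p y)) :
    ∃! ν : Measure UnitAddCircle, IsStationary α p ν :=
  H61.QP.existsUnique hα hp (fun y => (hp01 y).1) (fun y => (hp01 y).2) hsym

end Pool.Agent.Results.MP_8d4b21_pr.UniqueStationary
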